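import Pool.Agent.H61.KV.TG

/-! # KV board, module FTR: the face of `g + t` for a foot `g` -/

open Pool.Agent.H61.KV

namespace Pool.Agent.H67.KV.FTR

theorem pf_FTR (_h : T_FCB) : T_FTR := by
  intro V _ _ _ C p g t hC hp hg ht hfoot
  have htC : t ∈ C := ht.1
  refine ⟨⟨hg, 1, zero_le_one, ?_⟩, ⟨htC, 1, zero_le_one, ?_⟩, ?_⟩
  · have : (1 : ℝ) • (g + t) - g = t := by rw [one_smul]; abel
    rw [this]; exact htC
  · have : (1 : ℝ) • (g + t) - t = g := by rw [one_smul]; abel
    rw [this]; exact hg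
  · intro r hr hr2
    obtain ⟨hrC, c, hc, hcr⟩ := hr2
    rcases eq_or_lt_of_le hc with hc0 | hc0
    · have h1 : - r ∈ C := by
        have h2 := hcr
        rw [← hc0, zero_smul, zero_sub] at h2
        exact h2
      obtain ⟨e, he⟩ := hC.pos
      have hr0 : r = 0 := by
        by_contra hne
        have h3 := he r hrC hne
        have h4 := he (-r) h1 (neg_ne_zero.mpr hne)
        rw [map_neg] at h4
        linarith
      rw [hr0]
      refine ⟨hC.zero, 0, le_refl _, ?_⟩
      rw [zero_smul, sub_zero]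
      exact hC.zero
    · have h1 : c⁻¹ • (c • (g + t) - r) ∈ C := hC.smul _ (inv_nonneg.mpr hc) _ hcr
      have h2 : c⁻¹ • (c • (g + t) - r) - g = t - c⁻¹ • r := by
        rw [smul_sub, smul_smul, inv_mul_cancel₀ hc0.ne', one_smul]
        abel
      have htS : t ∈ Sp C p := Submodule.subset_span ht
      have hrS : r ∈ Sp C p := Submodule.subset_span hr
      have h3 : c⁻¹ • (c • (g + t) - r) - g ∈ Sp C p := by
        rw [h2]
        exact Submodule.sub_mem _ htS (Submodule.smul_mem _ _ hrS)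
      have h4 : c⁻¹ • (c • (g + t) - r) - g ∈ Fc C p := (hfoot _).1 ⟨h1, h3⟩
      rw [h2] at h4
      refine ⟨hrC, c, hc, ?_⟩
      have h5 := hC.smul c hc _ h4.1
      rw [smul_sub, smul_smul, mul_inv_cancel₀ hc0.ne', one_smul] at h5
      exact h5

end Pool.Agent.H67.KV.FTR
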