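import Pool.Agent.H61.KV.TG

/-! # KV board, module FTU: homogeneity and uniqueness of feet -/

open Pool.Agent.H61.KV

namespace Pool.Agent.H67.KV.FTU

theorem pf_FTU (h : T_FCB) : T_FTU := by
  intro V _ _ _ C p hC hp
  obtain ⟨hpp, hF, -, -, -, -, -⟩ := h V C p hC hp
  refine ⟨?_, ?_, ?_, ?_⟩
  · intro q g hqg
    have h0 : g - g ∈ Fc C p := by rw [sub_self]; exact hF.zero
    obtain ⟨h1, h2⟩ := (hqg g).2 h0
    refine ⟨h1, h2, ?_⟩
    intro r
    rw [← hqg r]
    constructor
    · rintro ⟨ha, hb⟩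
      refine ⟨ha, ?_⟩
      have : r - q = (r - g) + (g - q) := by abel
      rw [this]
      exact Submodule.add_mem _ hb h2
    · rintro ⟨ha, hb⟩
      refine ⟨ha, ?_⟩
      have : r - g = (r - q) - (g - q) := by abel
      rw [this]
      exact Submodule.sub_mem _ hb h2
  · intro q g hq hqg
    refine (hqg q).1 ⟨hq, ?_⟩
    rw [sub_self]
    exact Submodule.zero_mem _
  · intro q q' g g' hqq h1 h2
    have e1 : g - g' ∈ Fc C p := by
      obtain ⟨ha, hb⟩ := (h1 g).2 (by rw [sub_self]; exact hF.zero)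
      refine (h2 g).1 ⟨ha, ?_⟩
      have : g - q' = (g - q) + (q - q') := by abel
      rw [this]
      exact Submodule.add_mem _ hb hqq
    have e2 : g' - g ∈ Fc C p := by
      obtain ⟨ha, hb⟩ := (h2 g').2 (by rw [sub_self]; exact hF.zero)
      refine (h1 g').1 ⟨ha, ?_⟩
      have : g' - q = (g' - q') - (q - q') := by abel
      rw [this]
      exact Submodule.sub_mem _ hb hqq
    obtain ⟨e, he⟩ := hC.pos
    by_contra hne
    have h3 := he _ e1.1 (sub_ne_zero.mpr hne)
    have h4 := he _ e2.1 (sub_ne_zero.mpr (Ne.symm hne))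
    rw [map_sub] at h3 h4
    linarith
  · intro q g c hc hqg r
    have key : (c⁻¹ • r ∈ C ∧ c⁻¹ • r - q ∈ Sp C p) ↔ c⁻¹ • r - g ∈ Fc C p := hqg (c⁻¹ • r)
    have hci : 0 < c⁻¹ := inv_pos.mpr hc
    have hC1 : c⁻¹ • r ∈ C ↔ r ∈ C := by
      constructor
      · intro ha
        have := hC.smul c hc.le _ ha
        rwa [smul_smul, mul_inv_cancel₀ hc.ne', one_smul] at this
      · intro ha
        exact hC.smul _ hci.le _ ha
    have hS1 : c⁻¹ • r - q ∈ Sp C p ↔ r - c • q ∈ Sp C p := by
      constructor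
      · intro ha
        have := Submodule.smul_mem (Sp C p) c ha
        rwa [smul_sub, smul_smul, mul_inv_cancel₀ hc.ne', one_smul] at this
      · intro ha
        have := Submodule.smul_mem (Sp C p) c⁻¹ ha
        rwa [smul_sub, smul_smul, inv_mul_cancel₀ hc.ne', one_smul] at this
    have hF1 : c⁻¹ • r - g ∈ Fc C p ↔ r - c • g ∈ Fc C p := by
      constructor
      · intro ha
        have := hF.smul c hc.le _ ha
        rwa [smul_sub, smul_smul, mul_inv_cancel₀ hc.ne', one_smul] at this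
      · intro ha
        have := hF.smul c⁻¹ hci.le _ ha
        rwa [smul_sub, smul_smul, inv_mul_cancel₀ hc.ne', one_smul] at this
    rw [← hF1, ← key, hC1, hS1]

end Pool.Agent.H67.KV.FTU
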