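import Pool.Agent.H61.KV.TG

/-! # KV board, module TWB: a second boundary point -/

open Pool.Agent.H61.KV

namespace Pool.Agent.H67.KV.TWB

theorem pf_TWB (_h : T_FCB) (h2 : T_EXT) : T_TWB := by
  intro V _ _ _ C p t hC hp hrk
  have hex : ∃ v ∈ Sp C p, v ∉ Submodule.span ℝ ({p, t} : Set V) := by
    by_contra hcon
    push Not at hcon
    have hle : Sp C p ≤ Submodule.span ℝ ({p, t} : Set V) := hcon
    have h3 := Submodule.finrank_mono hle
    have h4 : Module.finrank ℝ (Submodule.span ℝ ({p, t} : Set V)) ≤ 2 := by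
      classical
      have h5 := finrank_span_finset_le_card (R := ℝ) (M := V) ({p, t} : Finset V)
      have h6 : (({p, t} : Finset V)).card ≤ 2 := Finset.card_le_two
      have h7 : (((({p, t} : Finset V)) : Set V)) = ({p, t} : Set V) := by simp
      unfold Set.finrank at h5
      rw [h7] at h5
      exact h5.trans h6
    omega
  obtain ⟨v, hv, hvn⟩ := hex
  obtain ⟨e, he⟩ := hC.pos
  have hv0 : v ≠ 0 := by
    rintro rfl
    exact hvn (Submodule.zero_mem _)
  have hw : ∃ w ∈ Sp C p, w ∉ C ∧ w ∉ Submodule.span ℝ ({p, t} : Set V) := by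
    by_cases hvC : v ∈ C
    · refine ⟨-v, Submodule.neg_mem _ hv, ?_, ?_⟩
      · intro hn
        have h3 := he v hvC hv0
        have h4 := he (-v) hn (neg_ne_zero.mpr hv0)
        rw [map_neg] at h4
        linarith
      · intro hn
        exact hvn (by simpa using Submodule.neg_mem _ hn)
    · exact ⟨v, hv, hvC, hvn⟩
  obtain ⟨w, hwS, hwC, hwn⟩ := hw
  obtain ⟨s, hs, hq, hpq⟩ := h2 V C p w hC hp hwS hwC
  have hpS : p ∈ Submodule.span ℝ ({p, t} : Set V) := Submodule.subset_span (by simp)
  have hqn : p + s • w ∉ Submodule.span ℝ ({t} : Set V) := by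
    intro hmem
    have h3 : Submodule.span ℝ ({t} : Set V) ≤ Submodule.span ℝ ({p, t} : Set V) :=
      Submodule.span_mono (by simp)
    have h4 := Submodule.sub_mem _ (h3 hmem) hpS
    have h5 : p + s • w - p = s • w := by abel
    rw [h5] at h4
    have h6 := Submodule.smul_mem _ s⁻¹ h4
    rw [smul_smul, inv_mul_cancel₀ hs.ne', one_smul] at h6
    exact hwn h6
  refine ⟨p + s • w, ⟨hq, ?_, hpq⟩, hqn⟩
  intro h0
  apply hqn
  rw [h0]
  exact Submodule.zero_mem _

end Pool.Agent.H67.KV.TWB
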